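import Pool.Agent.H78.STN.Stmts2

/-!
# Board `sto`, row EN0: computation
-/

set_option autoImplicit false

open Finset Pool.Agent.H40.COL

namespace Pool.STN

/-- the even numbers `s, s + 2, ...` (`n` of them) are checked -/
def en0_blk : ℕ → ℕ → Bool
  | 0, _ => true
  | n + 1, s => (Nat.beq (s % 3) 0 || sim 70 s s 3) && en0_blk n (s + 2)

theorem en0_blk_spec : ∀ (n s : ℕ), en0_blk n s = true → ∀ i < n, (s + 2 * i) % 3 ≠ 0 →
    sim 70 (s + 2 * i) (s + 2 * i) 3 = true
  | 0, _, _, i, hi, _ => absurd hi (Nat.not_lt_zero i)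
  | n + 1, s, h, i, hi, h3 => by
    rw [en0_blk, Bool.and_eq_true, Bool.or_eq_true] at h
    rcases Nat.eq_zero_or_pos i with rfl | hpos
    · rcases h.1 with h1 | h1
      · exact absurd (Nat.eq_of_beq_eq_true h1) (by simpa using h3)
      · simpa using h1
    · obtain ⟨j, rfl⟩ : ∃ j, i = j + 1 := ⟨i - 1, by omega⟩
      have e : s + 2 * (j + 1) = s + 2 + 2 * j := by ring
      rw [e] at h3 ⊢
      exact en0_blk_spec n (s + 2) h.2 j (by omega) h3

theorem en0_b0 : en0_blk 462 76 = true := by decide +kernel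

def en0_ok (m : ℕ) : Bool :=
  Nat.beq (m % 2) 1 || (Nat.beq (m % 3) 0 || (Nat.ble m 4 || (Nat.beq m 44 || (Nat.beq m 62 ||
    (Nat.beq m 70 || (Nat.beq m 74 || sim 70 m m 3))))))

theorem en0_all : (List.range 76).all en0_ok = true := by decide +kernel

theorem en0_sm (m : ℕ) (h : m < 76) (h3 : m % 2 = 0) (h4 : m % 3 ≠ 0) (h5 : 5 ≤ m) (h6 : m ≠ 44)
    (h7 : m ≠ 62) (h8 : m ≠ 70) (h9 : m ≠ 74) : sim 70 m m 3 = true := by
  have h10 := (List.all_eq_true.1 en0_all) m (List.mem_range.2 h)
  simp only [en0_ok, Bool.or_eq_true, Nat.beq_eq, Nat.ble_eq] at h10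
  rcases h10 with h | h | h | h | h | h | h | h
  · omega
  · exact absurd h h4
  · omega
  · exact absurd h h6
  · exact absurd h h7
  · exact absurd h h8
  · exact absurd h h9
  · exact h

theorem en0_b1 : en0_blk 500 1000 = true := by decide +kernel
theorem en0_b2 : en0_blk 500 2000 = true := by decide +kernel
theorem en0_b3 : en0_blk 500 3000 = true := by decide +kernel
theorem en0_b4 : en0_blk 500 4000 = true := by decide +kernel
theorem en0_b5 : en0_blk 500 5000 = true := by decide +kernel
theorem en0_b6 : en0_blk 500 6000 = true := by decide +kernel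
theorem en0_b7 : en0_blk 500 7000 = true := by decide +kernel
theorem en0_b8 : en0_blk 500 8000 = true := by decide +kernel
theorem en0_b9 : en0_blk 501 9000 = true := by decide +kernel

theorem EN0_thm : ENStmt 0 := by
  intro m h1 h2 h3 h4 h5 h6 h7 h8 h9
  have key : ∀ (n s : ℕ), en0_blk n s = true → s % 2 = 0 → s ≤ m → m < s + 2 * n →
      sim 70 m m 3 = true := by
    intro n s hb hs hl hu
    obtain ⟨i, rfl⟩ : ∃ i, m = s + 2 * i := ⟨(m - s) / 2, by omega⟩
    exact en0_blk_spec n s hb i (by omega) h4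
  rcases lt_or_ge m 76 with h | h
  · exact en0_sm m h h3 h4 h5 h6 h7 h8 h9
  rcases lt_or_ge m 1000 with h | h
  · exact key 462 76 en0_b0 (by norm_num) (by omega) (by omega)
  rcases lt_or_ge m 2000 with h | h
  · exact key 500 1000 en0_b1 (by norm_num) (by omega) (by omega)
  rcases lt_or_ge m 3000 with h | h
  · exact key 500 2000 en0_b2 (by norm_num) (by omega) (by omega)
  rcases lt_or_ge m 4000 with h | h
  · exact key 500 3000 en0_b3 (by norm_num) (by omega) (by omega)
  rcases lt_or_ge m 5000 with h | h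
  · exact key 500 4000 en0_b4 (by norm_num) (by omega) (by omega)
  rcases lt_or_ge m 6000 with h | h
  · exact key 500 5000 en0_b5 (by norm_num) (by omega) (by omega)
  rcases lt_or_ge m 7000 with h | h
  · exact key 500 6000 en0_b6 (by norm_num) (by omega) (by omega)
  rcases lt_or_ge m 8000 with h | h
  · exact key 500 7000 en0_b7 (by norm_num) (by omega) (by omega)
  rcases lt_or_ge m 9000 with h | h
  · exact key 500 8000 en0_b8 (by norm_num) (by omega) (by omega)
  · exact key 501 9000 en0_b9 (by norm_num) (by omega) (by omega)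

end Pool.STN
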