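import Pool.Agent.H78.STN.Stmts2

/-!
# Board `sto`, row EN6: computation
-/

set_option autoImplicit false

open Finset Pool.Agent.H40.COL

namespace Pool.STN

/-- the even numbers `s, s + 2, ...` (`n` of them) are checked -/
def en6_blk : ℕ → ℕ → Bool
  | 0, _ => true
  | n + 1, s => (Nat.beq (s % 3) 0 || sim 70 s s 3) && en6_blk n (s + 2)

theorem en6_blk_spec : ∀ (n s : ℕ), en6_blk n s = true → ∀ i < n, (s + 2 * i) % 3 ≠ 0 →
    sim 70 (s + 2 * i) (s + 2 * i) 3 = true
  | 0, _, _, i, hi, _ => absurd hi (Nat.not_lt_zero i)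
  | n + 1, s, h, i, hi, h3 => by
    rw [en6_blk, Bool.and_eq_true, Bool.or_eq_true] at h
    rcases Nat.eq_zero_or_pos i with rfl | hpos
    · rcases h.1 with h1 | h1
      · exact absurd (Nat.eq_of_beq_eq_true h1) (by simpa using h3)
      · simpa using h1
    · obtain ⟨j, rfl⟩ : ∃ j, i = j + 1 := ⟨i - 1, by omega⟩
      have e : s + 2 * (j + 1) = s + 2 + 2 * j := by ring
      rw [e] at h3 ⊢
      exact en6_blk_spec n (s + 2) h.2 j (by omega) h3

theorem en6_b0 : en6_blk 500 60000 = true := by decide +kernel
theorem en6_b1 : en6_blk 500 61000 = true := by decide +kernel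
theorem en6_b2 : en6_blk 500 62000 = true := by decide +kernel
theorem en6_b3 : en6_blk 500 63000 = true := by decide +kernel
theorem en6_b4 : en6_blk 500 64000 = true := by decide +kernel
theorem en6_b5 : en6_blk 500 65000 = true := by decide +kernel
theorem en6_b6 : en6_blk 500 66000 = true := by decide +kernel
theorem en6_b7 : en6_blk 500 67000 = true := by decide +kernel
theorem en6_b8 : en6_blk 500 68000 = true := by decide +kernel
theorem en6_b9 : en6_blk 501 69000 = true := by decide +kernel

theorem EN6_thm : ENStmt 6 := by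
  intro m h1 h2 h3 h4 _ _ _ _ _
  have key : ∀ (n s : ℕ), en6_blk n s = true → s % 2 = 0 → s ≤ m → m < s + 2 * n →
      sim 70 m m 3 = true := by
    intro n s hb hs hl hu
    obtain ⟨i, rfl⟩ : ∃ i, m = s + 2 * i := ⟨(m - s) / 2, by omega⟩
    exact en6_blk_spec n s hb i (by omega) h4
  rcases lt_or_ge m 61000 with h | h
  · exact key 500 60000 en6_b0 (by norm_num) (by omega) (by omega)
  rcases lt_or_ge m 62000 with h | h
  · exact key 500 61000 en6_b1 (by norm_num) (by omega) (by omega)
  rcases lt_or_ge m 63000 with h | h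
  · exact key 500 62000 en6_b2 (by norm_num) (by omega) (by omega)
  rcases lt_or_ge m 64000 with h | h
  · exact key 500 63000 en6_b3 (by norm_num) (by omega) (by omega)
  rcases lt_or_ge m 65000 with h | h
  · exact key 500 64000 en6_b4 (by norm_num) (by omega) (by omega)
  rcases lt_or_ge m 66000 with h | h
  · exact key 500 65000 en6_b5 (by norm_num) (by omega) (by omega)
  rcases lt_or_ge m 67000 with h | h
  · exact key 500 66000 en6_b6 (by norm_num) (by omega) (by omega)
  rcases lt_or_ge m 68000 with h | h
  · exact key 500 67000 en6_b7 (by norm_num) (by omega) (by omega)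
  rcases lt_or_ge m 69000 with h | h
  · exact key 500 68000 en6_b8 (by norm_num) (by omega) (by omega)
  · exact key 501 69000 en6_b9 (by norm_num) (by omega) (by omega)

end Pool.STN
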