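import Pool.Agent.H78.STN.Stmts2

/-!
# Board `sto`, row SIM: correctness of the simulation
-/

set_option autoImplicit false

open Finset Pool.Agent.H40.COL

namespace Pool.STN

/-- the condition which is counted -/
def sim_C (m0 j : ℕ) : Prop := F^[j] m0 % 3 = 0 ∧ F^[j + 1] m0 % 3 ≠ 0

instance sim_dec (m0 : ℕ) : DecidablePred (sim_C m0) := fun _ =>
  inferInstanceAs (Decidable (_ ∧ _))

theorem sim_gen (m0 : ℕ) (h2 : m0 % 2 = 0) (h3 : m0 % 3 ≠ 0) :
    ∀ (n s c x : ℕ), x = F^[s] m0 → sim n m0 x c = true →
      ∃ T : ℕ, s ≤ T ∧ (∀ j, s < j → j ≤ T → F^[j] m0 ≠ m0) ∧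
        c + 1 ≤ ((Ico s T).filter (sim_C m0)).card := by
  intro n
  induction n with
  | zero =>
    intro s c x _ h
    simp [sim] at h
  | succ n ih =>
    intro s c x hx h
    have hF : F^[s + 1] m0 = F x := by rw [Function.iterate_succ_apply', hx]
    have hmono : ∀ T, s + 1 ≤ T → ((Ico (s + 1) T).filter (sim_C m0)).card ≤
        ((Ico s T).filter (sim_C m0)).card := fun T hT =>
      card_le_card (filter_subset_filter _ (Ico_subset_Ico (Nat.le_succ s) le_rfl))
    have step : ∀ y c', F x = y → y ≠ m0 → sim n m0 y c' = true →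
        ∃ T : ℕ, s + 1 ≤ T ∧ (∀ j, s < j → j ≤ T → F^[j] m0 ≠ m0) ∧
          c' + 1 ≤ ((Ico (s + 1) T).filter (sim_C m0)).card := by
      intro y c' hy hne hs
      obtain ⟨T, hT, hj, hc⟩ := ih (s + 1) c' y (by rw [hF, hy]) hs
      refine ⟨T, hT, fun j hj1 hj2 => ?_, hc⟩
      rcases Nat.lt_or_ge (s + 1) j with h4 | h4
      · exact hj j h4 hj2
      · have : j = s + 1 := by omega
        rw [this, hF, hy]
        exact hne
    have h012 : x % 3 = 0 ∨ x % 3 = 1 ∨ x % 3 = 2 := by omega
    rcases h012 with hx0 | hx1 | hx2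
    · have hFx : F x = 2 * (x / 3) := by simp [F, hx0]
      unfold sim at h
      rw [hx0] at h
      by_cases hy : 2 * (x / 3) % 3 = 0
      · have hb : Nat.beq (2 * (x / 3) % 3) 0 = true := by rw [hy]; rfl
        rw [hb, cond_true] at h
        obtain ⟨T, hT, hj, hc⟩ := step _ c hFx (by intro he; rw [he] at hy; exact h3 hy) h
        exact ⟨T, by omega, hj, hc.trans (hmono T hT)⟩
      · have hb : Nat.beq (2 * (x / 3) % 3) 0 = false := by
          rw [Bool.eq_false_iff]
          intro hb
          exact hy (Nat.eq_of_beq_eq_true hb)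
        rw [hb, cond_false] at h
        by_cases hm : 2 * (x / 3) = m0
        · have hb2 : Nat.beq (2 * (x / 3)) m0 = true := by rw [hm]; exact Nat.beq_refl m0
          rw [hb2, cond_true] at h
          exact absurd h (by simp)
        · have hb2 : Nat.beq (2 * (x / 3)) m0 = false := by
            rw [Bool.eq_false_iff]
            intro hb2
            exact hm (Nat.eq_of_beq_eq_true hb2)
          rw [hb2, cond_false] at h
          have hCs : sim_C m0 s := by
            refine ⟨by rw [← hx]; exact hx0, ?_⟩
            rw [hF, hFx]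
            exact hy
          cases c with
          | zero =>
            refine ⟨s + 1, by omega, fun j hj1 hj2 => ?_, ?_⟩
            · have : j = s + 1 := by omega
              rw [this, hF, hFx]
              exact hm
            · have : s ∈ (Ico s (s + 1)).filter (sim_C m0) :=
                mem_filter.2 ⟨mem_Ico.2 ⟨le_rfl, by omega⟩, hCs⟩
              exact card_pos.2 ⟨s, this⟩
          | succ c =>
            obtain ⟨T, hT, hj, hc⟩ := step _ c hFx hm h
            refine ⟨T, by omega, hj, ?_⟩
            have h5 : insert s ((Ico (s + 1) T).filter (sim_C m0)) ⊆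
                (Ico s T).filter (sim_C m0) := by
              intro j hj5
              rcases mem_insert.1 hj5 with rfl | hj5
              · exact mem_filter.2 ⟨mem_Ico.2 ⟨le_rfl, by omega⟩, hCs⟩
              · have h6 := mem_filter.1 hj5
                have h7 := mem_Ico.1 h6.1
                exact mem_filter.2 ⟨mem_Ico.2 ⟨by omega, h7.2⟩, h6.2⟩
            have h8 : s ∉ (Ico (s + 1) T).filter (sim_C m0) := by
              intro h9
              have := mem_Ico.1 (mem_filter.1 h9).1
              omega
            have h10 := card_le_card h5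
            rw [card_insert_of_notMem h8] at h10
            omega
    · have hFx : F x = (4 * x - 1) / 3 := by simp [F, hx1]
      unfold sim at h
      rw [hx1] at h
      obtain ⟨T, hT, hj, hc⟩ := step _ c hFx (by omega) h
      exact ⟨T, by omega, hj, hc.trans (hmono T hT)⟩
    · have hFx : F x = (4 * x + 1) / 3 := by simp [F, hx2]
      unfold sim at h
      rw [hx2] at h
      obtain ⟨T, hT, hj, hc⟩ := step _ c hFx (by omega) h
      exact ⟨T, by omega, hj, hc.trans (hmono T hT)⟩

theorem SIM_thm : SIMStmt := by
  intro n m0 _ h2 h3 h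
  obtain ⟨T, _, hj, hc⟩ := sim_gen m0 h2 h3 n 0 3 m0 rfl h
  refine ⟨T, fun j hj1 hj2 => hj j hj1 hj2, ?_⟩
  rw [← range_eq_Ico] at hc
  refine hc.trans (card_le_card ?_)
  intro j hj1
  have h4 := mem_filter.1 hj1
  exact mem_filter.2 ⟨h4.1, h4.2⟩

end Pool.STN
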